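import Mathlib

namespace Pool.Agent.Lib.MP_62f119_co

open Finset

variable {K : Type} [Field K]

/-- `q` is nonzero and not a root of unity. -/
structure Gen (q : K) : Prop where
  ne : q ≠ 0
  pow : ∀ n : ℕ, 0 < n → q ^ n ≠ 1

lemma Gen.inv {q : K} (h : Gen q) : Gen q⁻¹ :=
  ⟨inv_ne_zero h.ne, fun n hn h1 => h.pow n hn (by rwa [inv_pow, inv_eq_one] at h1)⟩

lemma Gen.one_sub {q : K} (h : Gen q) : 1 - q ≠ 0 := by
  have := h.pow 1 one_pos
  rw [pow_one] at this
  exact sub_ne_zero.2 this.symm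

/-- q-integer with integer argument -/
def qz (q : K) (z : ℤ) : K := (1 - q ^ z) / (1 - q)

/-- q-factorial -/
def qf (q : K) : ℕ → K
  | 0 => 1
  | n + 1 => qf q n * qz q (n + 1)

/-- q-factorial of an integer -/
def F (q : K) (z : ℤ) : K := qf q z.toNat

/-- inverse q-factorial of an integer, zero on negative integers -/
def iF (q : K) (z : ℤ) : K := if 0 ≤ z then (qf q z.toNat)⁻¹ else 0

variable {q : K}

@[simp] lemma qz_zero : qz q 0 = 0 := by simp [qz]

lemma Gen.qz_ne (h : Gen q) {z : ℤ} (hz : 0 < z) : qz q z ≠ 0 := by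
  lift z to ℕ using hz.le with n
  refine div_ne_zero (sub_ne_zero.2 ?_) h.one_sub
  rw [zpow_natCast]
  exact (h.pow n (by exact_mod_cast hz)).symm

lemma Gen.qf_ne (h : Gen q) (n : ℕ) : qf q n ≠ 0 := by
  induction n with
  | zero => simp [qf]
  | succ n ih => exact mul_ne_zero ih (h.qz_ne (by omega))

lemma Gen.F_ne (h : Gen q) (z : ℤ) : F q z ≠ 0 := h.qf_ne _

lemma iF_neg {z : ℤ} (hz : z < 0) : iF q z = 0 := by simp [iF, not_le.2 hz]

lemma iF_eq {z : ℤ} (hz : 0 ≤ z) : iF q z = (F q z)⁻¹ := by simp [iF, hz, F]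

@[simp] lemma iF_zero : iF q 0 = 1 := by simp [iF, qf]

@[simp] lemma F_zero : F q 0 = 1 := by simp [F, qf]

lemma F_succ {z : ℤ} (hz : 0 ≤ z) : F q (z + 1) = F q z * qz q (z + 1) := by
  lift z to ℕ using hz with n
  have : ((n : ℤ) + 1).toNat = n + 1 := by omega
  simp [F, this, qf]

lemma Gen.F_mul_iF (h : Gen q) {z : ℤ} (hz : 0 ≤ z) : F q z * iF q z = 1 := by
  rw [iF_eq hz, mul_inv_cancel₀ (h.F_ne z)]

lemma Gen.iF_ne (h : Gen q) {z : ℤ} (hz : 0 ≤ z) : iF q z ≠ 0 := by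
  rw [iF_eq hz]; exact inv_ne_zero (h.F_ne z)

lemma Gen.iF_pred (h : Gen q) (z : ℤ) : iF q (z - 1) = qz q z * iF q z := by
  rcases lt_trichotomy z 0 with hz | rfl | hz
  · rw [iF_neg hz, iF_neg (by omega), mul_zero]
  · rw [iF_neg (by omega)]; simp
  · have h1 := F_succ (q := q) (z := z - 1) (by omega)
    rw [sub_add_cancel] at h1
    rw [iF_eq (by omega), iF_eq hz.le, h1]
    have := h.F_ne (z - 1)
    have := h.qz_ne hz
    field_simp

lemma Gen.qz_add (h : Gen q) (s t : ℤ) : qz q (s + t) = qz q s + q ^ s * qz q t := by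
  have := h.one_sub
  simp only [qz, zpow_add₀ h.ne]
  field_simp
  ring

/-- Gaussian binomial -/
def gb (q : K) (N : ℕ) (s : ℤ) : K := F q N * iF q s * iF q (N - s)

lemma Gen.pascal1 (h : Gen q) (N : ℕ) (s : ℤ) :
    gb q (N + 1) s = gb q N s + q ^ ((N : ℤ) + 1 - s) * gb q N (s - 1) := by
  have h1 := h.iF_pred ((N : ℤ) + 1 - s)
  have h2 := h.iF_pred s
  have h3 := h.qz_add ((N : ℤ) + 1 - s) s
  rw [sub_add_cancel] at h3
  simp only [gb]
  push_cast
  rw [F_succ (by omega), show (N : ℤ) - s = N + 1 - s - 1 by ring, h1, h2, h3,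
    show (N : ℤ) - (s - 1) = N + 1 - s by ring]
  ring

lemma Gen.pascal2 (h : Gen q) (N : ℕ) (s : ℤ) :
    gb q (N + 1) s = gb q N (s - 1) + q ^ s * gb q N s := by
  have h1 := h.iF_pred ((N : ℤ) + 1 - s)
  have h2 := h.iF_pred s
  have h3 := h.qz_add s ((N : ℤ) + 1 - s)
  rw [add_sub_cancel] at h3
  simp only [gb]
  push_cast
  rw [F_succ (by omega), show (N : ℤ) - s = N + 1 - s - 1 by ring, h1, h2, h3,
    show (N : ℤ) - (s - 1) = N + 1 - s by ring]
  ring

section mem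
variable {S : Subsemiring K}

lemma zpow_mem' (h1 : q ∈ S) (h2 : q⁻¹ ∈ S) (z : ℤ) : q ^ z ∈ S := by
  rcases Int.eq_nat_or_neg z with ⟨n, rfl | rfl⟩
  · rw [zpow_natCast]; exact pow_mem h1 n
  · rw [zpow_neg, zpow_natCast, ← inv_pow]; exact pow_mem h2 n

lemma Gen.qz_one (h : Gen q) : qz q 1 = 1 := by
  simp [qz, h.one_sub]

lemma Gen.qz_mem (h : Gen q) (h1 : q ∈ S) {z : ℤ} (hz : 0 ≤ z) : qz q z ∈ S := by
  lift z to ℕ using hz with n
  induction n with
  | zero => simp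
  | succ n ih =>
    have := h.qz_add 1 n
    rw [add_comm, h.qz_one, zpow_one] at this
    push_cast
    rw [this]
    exact add_mem (one_mem S) (mul_mem h1 ih)

lemma Gen.gb_mem (h : Gen q) (h1 : q ∈ S) (h2 : q⁻¹ ∈ S) (N : ℕ) (s : ℤ) : gb q N s ∈ S := by
  induction N generalizing s with
  | zero =>
    rcases lt_trichotomy s 0 with hs | rfl | hs
    · simp [gb, iF_neg hs]
    · simp [gb]
    · rw [gb, iF_neg (z := ((0 : ℕ) : ℤ) - s) (by omega), mul_zero]; exact zero_mem S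
  | succ N ih =>
    rw [h.pascal2]
    exact add_mem (ih _) (mul_mem (zpow_mem' h1 h2 _) (ih _))

lemma Gen.binom_mem (h : Gen q) (h1 : q ∈ S) (h2 : q⁻¹ ∈ S) (s t : ℤ) :
    F q (s + t) * iF q s * iF q t ∈ S := by
  rcases lt_or_ge s 0 with hs | hs
  · rw [iF_neg hs, mul_zero, zero_mul]; exact zero_mem S
  rcases lt_or_ge t 0 with ht | ht
  · rw [iF_neg ht, mul_zero]; exact zero_mem S
  have := h.gb_mem h1 h2 (s + t).toNat s
  rw [gb, Int.toNat_of_nonneg (by omega), add_sub_cancel_left] at this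
  exact this

lemma Gen.iF_le (h : Gen q) (h1 : q ∈ S) {s t : ℤ} (hst : s ≤ t) :
    ∃ p ∈ S, iF q s = p * iF q t := by
  rcases lt_or_ge s 0 with hs | hs
  · exact ⟨0, zero_mem S, by rw [iF_neg hs, zero_mul]⟩
  induction t, hst using Int.leInduction with
  | base => exact ⟨1, one_mem S, (one_mul _).symm⟩
  | succ t ht ih =>
    obtain ⟨p, hp, e⟩ := ih
    refine ⟨p * qz q (t + 1), mul_mem hp (h.qz_mem h1 (by omega)), ?_⟩
    have := h.iF_pred (t + 1)
    rw [add_sub_cancel_right] at this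
    rw [e, this, mul_assoc]

end mem

/-- the q-Vandermonde type sum -/
def V (q : K) (A : ℕ) (g : ℤ → K) (c : ℤ) : K :=
  ∑ s ∈ range (A + 1), q ^ ((s : ℤ) * (s + c)) * gb q A s * g (s + c)

lemma Gen.V_succ (h : Gen q) (A : ℕ) (g : ℤ → K) (c : ℤ) :
    V q (A + 1) g c = V q A g c + q ^ ((A : ℤ) + c + 1) * V q A g (c + 1) := by
  simp only [V, h.pascal1, mul_add, add_mul, sum_add_distrib]
  congr 1
  · rw [sum_range_succ, gb, iF_neg (z := (A : ℤ) - ((A + 1 : ℕ) : ℤ)) (by omega)]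
    simp
  · rw [sum_range_succ', gb, iF_neg (z := ((0 : ℕ) : ℤ) - 1) (by omega), mul_sum]
    simp only [mul_zero, zero_mul, add_zero]
    refine sum_congr rfl fun s _ => ?_
    push_cast
    rw [add_sub_cancel_right, show (s : ℤ) + 1 + c = s + (c + 1) by ring, ← mul_assoc,
      ← mul_assoc, ← mul_assoc, ← zpow_add₀ h.ne, ← zpow_add₀ h.ne]
    congr 3
    ring

lemma V_zero (g : ℤ → K) (c : ℤ) : V q 0 g c = g c := by simp [V, gb]

lemma Gen.V_gb (h : Gen q) (A M : ℕ) (c : ℤ) : V q A (gb q M) c = gb q (A + M) (A + c) := by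
  induction A generalizing c with
  | zero => simp [V_zero]
  | succ A ih =>
    rw [h.V_succ, ih, ih, show A + 1 + M = (A + M) + 1 by ring, h.pascal2]
    push_cast
    rw [show (A : ℤ) + 1 + c - 1 = A + c by ring, show (A : ℤ) + (c + 1) = A + 1 + c by ring,
      show (A : ℤ) + c + 1 = A + 1 + c by ring]

lemma Gen.V_iF (h : Gen q) (A : ℕ) (c : ℤ) :
    V q A (fun t => (1 - q) ^ (-t) * iF q t) c = (1 - q) ^ (-((A : ℤ) + c)) * iF q (A + c) := by
  induction A generalizing c with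
  | zero => simp [V_zero]
  | succ A ih =>
    have h1 := h.iF_pred ((A : ℤ) + c + 1)
    rw [add_sub_cancel_right] at h1
    have h2 := h.one_sub
    rw [h.V_succ, ih, ih, h1]
    push_cast
    rw [show (A : ℤ) + (c + 1) = A + c + 1 by ring, show (A : ℤ) + 1 + c = A + c + 1 by ring,
      show -((A : ℤ) + c) = -(A + c + 1) + 1 by ring, zpow_add₀ h2, qz]
    field_simp
    ring

/-- `1 / ([n+k]! [n-k]!)` -/
def u (q : K) (n k : ℕ) : K := iF q ((n : ℤ) + k) * iF q ((n : ℤ) - k)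

lemma u_eq_zero {n k : ℕ} (h : n < k) : u q n k = 0 := by
  rw [u, iF_neg (z := (n : ℤ) - k) (by omega), mul_zero]

lemma sum_shift {a k A : ℕ} (hk : a ≤ k) (f : ℕ → K) (hf : ∀ l < k, f l = 0) :
    ∑ l ∈ Icc a (k + A), f l = ∑ s ∈ range (A + 1), f (k + s) := by
  rw [← sum_subset (s₁ := Icc k (k + A)) (Icc_subset_Icc_left hk)
    (fun l h1 h2 => hf l (by simp only [mem_Icc] at h1 h2; omega)), ← Finset.Ico_add_one_right_eq_Icc,
    sum_Ico_eq_sum_range, show k + A + 1 - k = A + 1 by omega]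

lemma Gen.star (h : Gen q) {a k x : ℕ} (n : ℕ) (hk : a ≤ k) (hkx : k ≤ x) :
    F q ((x : ℤ) + n) * u q x k * u q n k = ∑ l ∈ Icc a x,
      q ^ ((l : ℤ) ^ 2 - (k : ℤ) ^ 2) * u q l k * iF q ((x : ℤ) - l) * iF q ((n : ℤ) - l) := by
  rcases lt_or_ge n k with hn | hn
  · rw [u_eq_zero hn, mul_zero]
    refine (sum_eq_zero fun l _ => ?_).symm
    rcases lt_or_ge l k with hl | hl
    · simp [u_eq_zero hl]
    · rw [iF_neg (z := (n : ℤ) - l) (by omega), mul_zero]
  obtain ⟨A, rfl⟩ := Nat.exists_eq_add_of_le hkx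
  obtain ⟨B, rfl⟩ := Nat.exists_eq_add_of_le hn
  rw [sum_shift hk _ (fun l hl => by simp [u_eq_zero hl])]
  have h1 := h.V_gb A (B + 2 * k) (2 * k)
  have h2 := h.F_mul_iF (z := A) (by omega)
  have h3 := h.F_mul_iF (z := (B : ℤ) + 2 * k) (by omega)
  have h4 := congrArg (fun t => t * (iF q A * iF q ((B : ℤ) + 2 * k))) h1
  simp only [V, sum_mul, gb] at h4
  push_cast at h4
  simp only [u]
  push_cast
  convert h4.symm using 1
  · rw [show (k : ℤ) + A + (k + B) = A + (B + 2 * k) by ring,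
      show (k : ℤ) + A + k = A + 2 * k by ring, show (k : ℤ) + A - k = A by ring,
      show (k : ℤ) + B + k = B + 2 * k by ring, show (k : ℤ) + B - k = B by ring,
      show (A : ℤ) + (B + 2 * k) - (A + 2 * k) = B by ring]
    ring
  · refine sum_congr rfl fun s _ => ?_
    rw [show ((k : ℤ) + s) ^ 2 - (k : ℤ) ^ 2 = s * (s + 2 * k) by ring,
      show (k : ℤ) + s + k = s + 2 * k by ring, show (k : ℤ) + s - k = s by ring,
      show (k : ℤ) + A - (k + s) = A - s by ring, show (k : ℤ) + B - (k + s) = B - s by ring,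
      show (B : ℤ) + 2 * k - (s + 2 * k) = B - s by ring]
    linear_combination (-(q ^ ((s : ℤ) * (s + 2 * k)) * iF q s * iF q (A - s) *
      iF q (s + 2 * k) * iF q (B - s))) * (h2 * (F q (B + 2 * k) * iF q (B + 2 * k)) + h3)

lemma Gen.star2 (h : Gen q) {a k x : ℕ} (hk : a ≤ k) (hkx : k ≤ x) :
    u q x k = ∑ l ∈ Icc a x,
      q ^ ((l : ℤ) ^ 2 - (k : ℤ) ^ 2) * u q l k * iF q ((x : ℤ) - l) * (1 - q) ^ (x - l) := by
  obtain ⟨A, rfl⟩ := Nat.exists_eq_add_of_le hkx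
  rw [sum_shift hk _ (fun l hl => by simp [u_eq_zero hl])]
  have h1 := h.V_iF A (2 * k)
  have h2 := h.F_mul_iF (z := A) (by omega)
  have h3 := h.one_sub
  have h4 := congrArg (fun t => t * (iF q A * (1 - q) ^ ((A : ℤ) + 2 * k))) h1
  simp only [V, sum_mul, gb] at h4
  simp only [u]
  push_cast
  convert h4.symm using 1
  · rw [show (k : ℤ) + A + k = A + 2 * k by ring, show (k : ℤ) + A - k = A by ring, zpow_neg]
    have := zpow_ne_zero ((A : ℤ) + 2 * k) h3
    field_simp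
  · refine sum_congr rfl fun s hs => ?_
    have hs' : s ≤ A := by simpa [Nat.lt_succ_iff] using hs
    have h5 : (1 - q) ^ (k + A - (k + s)) =
        (1 - q) ^ (-((s : ℤ) + 2 * k)) * (1 - q) ^ ((A : ℤ) + 2 * k) := by
      rw [← zpow_add₀ h3, ← zpow_natCast]
      congr 1
      omega
    rw [h5, show ((k : ℤ) + s) ^ 2 - (k : ℤ) ^ 2 = s * (s + 2 * k) by ring,
      show (k : ℤ) + s + k = s + 2 * k by ring, show (k : ℤ) + s - k = s by ring,
      show (k : ℤ) + A - (k + s) = A - s by ring]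
    linear_combination (-(q ^ ((s : ℤ) * (s + 2 * k)) * iF q s * iF q (A - s) *
      iF q (s + 2 * k) * (1 - q) ^ (-((s : ℤ) + 2 * k)) * (1 - q) ^ ((A : ℤ) + 2 * k))) * h2

end Pool.Agent.Lib.MP_62f119_co
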