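import Mathlib

namespace Pool.Agent.Lib.MP_62f119_co

open Finset RatFunc

/-- `[n] = (1 - q^n) / (1 - q)` in `ℚ(q)`, with `q = X`. -/
noncomputable def qInt (n : ℕ) : RatFunc ℚ := (1 - X ^ n) / (1 - X)

/-- The Gaussian binomial coefficient. -/
noncomputable def qBinom (N K : ℕ) : RatFunc ℚ :=
  if K ≤ N then ∏ i ∈ Icc 1 K, (1 - X ^ (N - K + i)) / (1 - X ^ i) else 0

/-- The quantity `S` of the problem, for the data `m, n 1, …, n m, n (m+1), j, a, r`. -/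
noncomputable def cycS (m : ℕ) (n : ℕ → ℕ) (j : ℤ) (a r : ℕ) : RatFunc ℚ :=
  (∑ k ∈ Icc a (n 1),
      (X ^ (j * (k : ℤ) ^ 2 - ((r : ℤ) + 1) * (k : ℤ)) * qInt (2 * k) * qInt k ^ (2 * r)) *
        ∏ i ∈ Icc 1 m, qBinom (n (i + 1) + n i) (k + n i)) /
    (qInt (n m + a) * qBinom (n m + n 1) (n 1 - a))

end Pool.Agent.Lib.MP_62f119_co
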