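import Pool.Agent.Lib.MP_62f119_co.Main
import Pool.Agent.Lib.MP_62f119_co.Defs

namespace Pool.Agent.Lib.MP_62f119_co

open Finset

section general
variable {K : Type} [Field K] {q : K}

lemma Y_closed (a m : ℕ) (n : ℕ → ℕ) (k : ℕ) :
    F q (n 0 + hd a m (fun i => n (i + 1))) * Y q a m (fun i => n (i + 1)) k =
      (∏ i ∈ range m, F q ((n (i + 1) : ℤ) + n i) * u q (n (i + 1)) k) * F q (n m + (a - 1)) := by
  induction m generalizing n with
  | zero => simp [Y, hd]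
  | succ m ih =>
    have := ih (fun i => n (i + 1))
    rw [prod_range_succ', Y, show hd a (m + 1) (fun i => n (i + 1)) = n (0 + 1) from rfl,
      add_comm (n 0 : ℤ)]
    linear_combination (F q ((n (0 + 1) : ℤ) + n 0) * u q (n (0 + 1)) k) * this

lemma Gen.prod_eq_gb (h : Gen q) (M L : ℕ) :
    ∏ i ∈ Icc 1 L, (1 - q ^ (M + i)) / (1 - q ^ i) = F q (M + L) * iF q L * iF q M := by
  induction L with
  | zero => simp [h.F_mul_iF]
  | succ L ih =>
    have e1 := h.iF_pred ((L : ℤ) + 1)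
    rw [add_sub_cancel_right] at e1
    have e2 := h.one_sub
    have e3 : 1 - q ^ (L + 1) ≠ 0 := sub_ne_zero.2 (h.pow _ (by omega)).symm
    rw [prod_Icc_succ_top (by omega), ih, e1]
    push_cast
    rw [← add_assoc (M : ℤ), F_succ (by omega)]
    simp only [qz]
    rw [show (L : ℤ) + 1 = ((L + 1 : ℕ) : ℤ) by push_cast; ring,
      show (M : ℤ) + L + 1 = ((M + (L + 1) : ℕ) : ℤ) by push_cast; ring, zpow_natCast, zpow_natCast]
    field_simp

lemma exists_finsupp_of_mem_closure (hq : q ≠ 0) {x : K}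
    (hx : x ∈ Subsemiring.closure ({q, q⁻¹} : Set K)) :
    ∃ c : ℤ →₀ ℤ, x = c.sum (fun e t => (t : K) * q ^ e) ∧ ∀ e, 0 ≤ c e := by
  rw [Subsemiring.mem_closure_iff] at hx
  induction hx using AddSubmonoid.closure_induction with
  | mem x hx =>
    have : ∃ e : ℤ, x = q ^ e := by
      induction hx using Submonoid.closure_induction with
      | mem y hy =>
        rcases hy with rfl | rfl
        · exact ⟨1, by simp⟩
        · exact ⟨-1, by simp⟩
      | one => exact ⟨0, by simp⟩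
      | mul y z _ _ hy hz =>
        obtain ⟨e, rfl⟩ := hy
        obtain ⟨f, rfl⟩ := hz
        exact ⟨e + f, (zpow_add₀ hq _ _).symm⟩
    obtain ⟨e, rfl⟩ := this
    refine ⟨Finsupp.single e 1, by simp, fun f => ?_⟩
    rw [Finsupp.single_apply]
    split_ifs <;> simp
  | zero => exact ⟨0, by simp, by simp⟩
  | add x y _ _ hx hy =>
    obtain ⟨c, rfl, hc⟩ := hx
    obtain ⟨d, rfl, hd⟩ := hy
    refine ⟨c + d, ?_, fun e => add_nonneg (hc e) (hd e)⟩
    rw [Finsupp.sum_add_index' (by simp) (by intros; push_cast; ring)]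

lemma exists_finsupp_of_mem_ring (hq : q ≠ 0) {x : K}
    (hx : x ∈ Subring.closure ({q, q⁻¹} : Set K)) :
    ∃ c : ℤ →₀ ℤ, x = c.sum (fun e t => (t : K) * q ^ e) := by
  rw [Subring.mem_closure_iff] at hx
  induction hx using AddSubgroup.closure_induction with
  | mem x hx =>
    obtain ⟨c, hc, -⟩ := exists_finsupp_of_mem_closure hq (x := x)
      (Subsemiring.mem_closure_iff.2 (AddSubmonoid.subset_closure hx))
    exact ⟨c, hc⟩
  | zero => exact ⟨0, by simp⟩
  | add x y _ _ hx hy =>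
    obtain ⟨c, rfl⟩ := hx
    obtain ⟨d, rfl⟩ := hy
    refine ⟨c + d, ?_⟩
    rw [Finsupp.sum_add_index' (by simp) (by intros; push_cast; ring)]
  | neg x _ hx =>
    obtain ⟨c, rfl⟩ := hx
    refine ⟨-c, ?_⟩
    rw [Finsupp.sum_neg_index (by simp)]
    simp [Finsupp.sum]

end general

open RatFunc

lemma gen_X : Gen (X : RatFunc ℚ) := by
  refine ⟨RatFunc.X_ne_zero, fun n hn h => ?_⟩
  have h1 : (algebraMap (Polynomial ℚ) (RatFunc ℚ)) (Polynomial.X ^ n) =
      algebraMap (Polynomial ℚ) (RatFunc ℚ) 1 := by simpa using h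
  have h2 := congrArg Polynomial.natDegree (RatFunc.algebraMap_injective ℚ h1)
  simp at h2
  omega

lemma qInt_eq (n : ℕ) : qInt n = qz X n := by simp [qInt, qz]

lemma qBinom_eq (N L : ℕ) : qBinom N L = F X N * iF X L * iF X ((N : ℤ) - L) := by
  rw [qBinom]
  split_ifs with h
  · obtain ⟨M, rfl⟩ := Nat.exists_eq_add_of_le' h
    rw [Nat.add_sub_cancel, gen_X.prod_eq_gb]
    push_cast
    rw [add_sub_cancel_right]
  · rw [iF_neg (z := (N : ℤ) - L) (by omega), mul_zero]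

lemma cycS_mem {S : Subsemiring (RatFunc ℚ)} {m : ℕ} {n : ℕ → ℕ} {j : ℤ} {a r : ℕ}
    (hn : 0 < n (m + 1)) (hc : n (m + 1 + 1) = n 1) (ha : a ≤ n 1) (hG : Good S X a r j m) :
    cycS (m + 1) n j a r ∈ S := by
  have h := gen_X
  obtain ⟨p, hp, hT⟩ := hG (n 1) (fun i => n (i + 1 + 1)) ha
  set H : ℤ := hd a m (fun i => n (i + 1 + 1)) with hH
  have hnum : ∀ k : ℕ, (∏ i ∈ Icc 1 (m + 1), qBinom (n (i + 1) + n i) (k + n i)) *
      F X (n (m + 1) + (a - 1)) = F X ((n (m + 1) : ℤ) + n 1) * F X (n 1 + H) *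
        (u X (n 1) k * Y X a m (fun i => n (i + 1 + 1)) k) := by
    intro k
    have e := Y_closed (q := (X : RatFunc ℚ)) a m (fun i => n (i + 1)) k
    simp only [zero_add] at e
    have e1 : ∏ i ∈ Icc 1 (m + 1), qBinom (n (i + 1) + n i) (k + n i) =
        (∏ i ∈ range (m + 1), F X ((n (i + 1 + 1) : ℤ) + n (i + 1))) *
        (∏ i ∈ range (m + 1), iF X ((n (i + 1) : ℤ) + k)) *
        (∏ i ∈ range (m + 1), iF X ((n (i + 1 + 1) : ℤ) - k)) := by
      rw [← Finset.Ico_add_one_right_eq_Icc, prod_Ico_eq_prod_range, Nat.add_sub_cancel,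
        ← prod_mul_distrib, ← prod_mul_distrib]
      refine prod_congr rfl fun i _ => ?_
      rw [qBinom_eq, add_comm 1 i]
      push_cast
      rw [add_comm (k : ℤ), show (n (i + 1 + 1) : ℤ) + n (i + 1) - (n (i + 1) + k) =
        n (i + 1 + 1) - k by ring]
    rw [e1, prod_range_succ, prod_range_succ', prod_range_succ, hc, add_comm (n 1 : ℤ) (n (m + 1))]
    simp only [u, prod_mul_distrib, zero_add] at e ⊢
    linear_combination (-(F X ((n (m + 1) : ℤ) + n 1) * iF X ((n 1 : ℤ) + k) *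
      iF X ((n 1 : ℤ) - k))) * e
  have hH0 : 0 ≤ (n 1 : ℤ) + H := by
    cases m with
    | zero => simp only [hH, hd]; simp only [zero_add] at hn; omega
    | succ m => simp only [hH, hd]; omega
  have hden : qInt (n (m + 1) + a) * qBinom (n (m + 1) + n 1) (n 1 - a) =
      F X ((n (m + 1) : ℤ) + n 1) * iF X ((n 1 : ℤ) - a) * iF X (n (m + 1) + (a - 1)) := by
    have e := h.iF_pred ((n (m + 1) : ℤ) + a)
    rw [qInt_eq, qBinom_eq, Nat.cast_sub ha, ← add_sub_assoc, e]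
    push_cast
    rw [show (n (m + 1) : ℤ) + n 1 - (n 1 - a) = n (m + 1) + a by ring]
    ring
  have e1 := h.F_mul_iF hH0
  have e2 := h.F_mul_iF (z := (n (m + 1) : ℤ) + (a - 1)) (by omega)
  have hS : cycS (m + 1) n j a r = p := by
    rw [cycS, hden, div_eq_iff (mul_ne_zero (mul_ne_zero (h.F_ne _) (h.iF_ne (by omega)))
      (h.iF_ne (by omega)))]
    have e3 : (∑ k ∈ Icc a (n 1),
        (X ^ (j * (k : ℤ) ^ 2 - ((r : ℤ) + 1) * (k : ℤ)) * qInt (2 * k) * qInt k ^ (2 * r)) *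
          ∏ i ∈ Icc 1 (m + 1), qBinom (n (i + 1) + n i) (k + n i)) * F X (n (m + 1) + (a - 1)) =
        F X ((n (m + 1) : ℤ) + n 1) * F X (n 1 + H) *
          T X a r j (n 1) m (fun i => n (i + 1 + 1)) := by
      rw [T, sum_mul, mul_sum]
      refine sum_congr rfl fun k _ => ?_
      rw [mul_assoc, hnum k, qInt_eq, qInt_eq, w]
      push_cast
      ring
    rw [hT] at e3
    linear_combination iF X (n (m + 1) + (a - 1)) * e3 -
      (∑ k ∈ Icc a (n 1),
        (X ^ (j * (k : ℤ) ^ 2 - ((r : ℤ) + 1) * (k : ℤ)) * qInt (2 * k) * qInt k ^ (2 * r)) *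
          ∏ i ∈ Icc 1 (m + 1), qBinom (n (i + 1) + n i) (k + n i)) * e2 +
      (p * F X ((n (m + 1) : ℤ) + n 1) * iF X ((n 1 : ℤ) - a) * iF X (n (m + 1) + (a - 1))) * e1
  rwa [hS]

theorem main (m : ℕ) (hm : 1 ≤ m) (n : ℕ → ℕ) (hn : ∀ i, 1 ≤ i → i ≤ m → 0 < n i)
    (hc : n (m + 1) = n 1) (j : ℤ) (a r : ℕ) (ha : a ≤ n 1) :
    ∃ c : ℤ →₀ ℤ, cycS m n j a r = c.sum (fun e t => (t : RatFunc ℚ) * X ^ e) ∧
      (0 ≤ j → j ≤ m → ∀ e, 0 ≤ c e) := by
  obtain ⟨m, rfl⟩ := Nat.exists_eq_add_of_le' hm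
  have hn' := hn (m + 1) (by omega) le_rfl
  by_cases hj : 0 ≤ j ∧ j ≤ (m + 1 : ℕ)
  · obtain ⟨c, h1, h2⟩ := exists_finsupp_of_mem_closure gen_X.ne (cycS_mem hn' hc ha
      (good_pos a r m X gen_X (Subsemiring.subset_closure (by simp))
        (Subsemiring.subset_closure (by simp)) j hj.1 (by exact_mod_cast hj.2)))
    exact ⟨c, h1, fun _ _ => h2⟩
  · obtain ⟨c, h1⟩ := exists_finsupp_of_mem_ring gen_X.ne (cycS_mem
      (S := (Subring.closure ({X, X⁻¹} : Set (RatFunc ℚ))).toSubsemiring) hn' hc ha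
      (good_all (Subring.neg_mem _ (Subring.one_mem _)) a r m gen_X
        (Subring.subset_closure (by simp)) (Subring.subset_closure (by simp)) j))
    exact ⟨c, h1, fun h0 h1 => absurd ⟨h0, h1⟩ hj⟩

end Pool.Agent.Lib.MP_62f119_co
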