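import Pool.Agent.Lib.MP_62f119_co.Basic

namespace Pool.Agent.Lib.MP_62f119_co

open Finset

variable {K : Type} [Field K] {q : K} {S : Subsemiring K}

/-- the weight -/
def w (q : K) (r : ℕ) (j : ℤ) (k : ℕ) : K :=
  q ^ (j * (k : ℤ) ^ 2 - (r + 1) * k) * qz q (2 * k) * qz q k ^ (2 * r)

/-- the head of the remaining sequence -/
def hd (a : ℕ) : ℕ → (ℕ → ℕ) → ℤ
  | 0, _ => (a : ℤ) - 1
  | _ + 1, n => n 0

/-- the product over the remaining sequence -/
def Y (q : K) (a : ℕ) : ℕ → (ℕ → ℕ) → ℕ → K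
  | 0, _, _ => 1
  | m + 1, n, k => u q (n 0) k * F q (n 0 + hd a m (fun i => n (i + 1))) *
      Y q a m (fun i => n (i + 1)) k

/-- the raw sum -/
def T (q : K) (a r : ℕ) (j : ℤ) (x m : ℕ) (n : ℕ → ℕ) : K :=
  ∑ k ∈ Icc a x, w q r j k * u q x k * Y q a m n k

/-- the normalised sum lies in `S` -/
def Good (S : Subsemiring K) (q : K) (a r : ℕ) (j : ℤ) (m : ℕ) : Prop :=
  ∀ (x : ℕ) (n : ℕ → ℕ), a ≤ x →
    ∃ p ∈ S, T q a r j x m n = p * iF q ((x : ℤ) - a) * iF q (x + hd a m n)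

lemma T_ext {a r l x m : ℕ} {j : ℤ} {n : ℕ → ℕ} (h : l ≤ x) :
    T q a r j l m n = ∑ k ∈ Icc a x, w q r j k * u q l k * Y q a m n k := by
  refine sum_subset (Icc_subset_Icc_right h) fun k h1 h2 => ?_
  rw [u_eq_zero (by simp only [mem_Icc] at h1 h2; omega), mul_zero, zero_mul]

lemma Gen.w_succ (h : Gen q) (r : ℕ) (j : ℤ) (k : ℕ) (e : ℤ) :
    w q r (j + 1) k * q ^ (e - (k : ℤ) ^ 2) = q ^ e * w q r j k := by
  have : q ^ ((j + 1) * (k : ℤ) ^ 2 - (r + 1) * k) * q ^ (e - (k : ℤ) ^ 2) =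
      q ^ e * q ^ (j * (k : ℤ) ^ 2 - (r + 1) * k) := by
    rw [← zpow_add₀ h.ne, ← zpow_add₀ h.ne]; congr 1; ring
  simp only [w]
  linear_combination (qz q (2 * k) * qz q k ^ (2 * r)) * this

lemma Gen.step (h : Gen q) (h1 : q ∈ S) (h2 : q⁻¹ ∈ S) {a r m : ℕ} {j : ℤ}
    (hG : Good S q a r j m) : Good S q a r (j + 1) (m + 1) := by
  intro x n hx
  set n' : ℕ → ℕ := fun i => n (i + 1) with hn'
  have key : T q a r (j + 1) x (m + 1) n * F q ((x : ℤ) + n 0) =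
      ∑ l ∈ Icc a x, q ^ ((l : ℤ) ^ 2) * iF q ((x : ℤ) - l) * iF q ((n 0 : ℤ) - l) *
        F q (n 0 + hd a m n') * T q a r j l m n' := by
    rw [sum_congr rfl fun l hl => by rw [T_ext (mem_Icc.1 hl).2, mul_sum], sum_comm, T, sum_mul]
    refine sum_congr rfl fun k hk => ?_
    have := h.star (n 0) (mem_Icc.1 hk).1 (mem_Icc.1 hk).2
    calc _ = w q r (j + 1) k * (F q ((x : ℤ) + n 0) * u q x k * u q (n 0) k) *
          (F q (n 0 + hd a m n') * Y q a m n' k) := by simp only [Y]; ring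
      _ = _ := by
        rw [this, mul_sum, sum_mul]
        refine sum_congr rfl fun l _ => ?_
        linear_combination (u q l k * iF q ((x : ℤ) - l) * iF q ((n 0 : ℤ) - l) *
          F q (n 0 + hd a m n') * Y q a m n' k) * h.w_succ r j k ((l : ℤ) ^ 2)
  choose! p hp hT using fun l (hl : a ≤ l) => hG l n' hl
  refine ⟨∑ l ∈ Icc a x, q ^ ((l : ℤ) ^ 2) * p l *
    (F q (((n 0 : ℤ) - l) + (l + hd a m n')) * iF q ((n 0 : ℤ) - l) * iF q (l + hd a m n')) *
    (F q (((x : ℤ) - l) + (l - a)) * iF q ((x : ℤ) - l) * iF q (l - a)), ?_, ?_⟩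
  · exact sum_mem fun l hl => mul_mem (mul_mem (mul_mem (zpow_mem' h1 h2 _)
      (hp l (mem_Icc.1 hl).1)) (h.binom_mem h1 h2 _ _)) (h.binom_mem h1 h2 _ _)
  · have e1 := h.F_mul_iF (z := (x : ℤ) + n 0) (by omega)
    have e2 := h.F_mul_iF (z := (x : ℤ) - a) (by omega)
    calc _ = T q a r (j + 1) x (m + 1) n * F q ((x : ℤ) + n 0) * iF q ((x : ℤ) + n 0) := by
          rw [mul_assoc, e1, mul_one]
      _ = _ := by
        rw [key, sum_mul, sum_mul, sum_mul]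
        refine sum_congr rfl fun l hl => ?_
        rw [hT l (mem_Icc.1 hl).1, show (n 0 : ℤ) - l + (l + hd a m n') = n 0 + hd a m n' by ring,
          show (x : ℤ) - l + (l - a) = x - a by ring, show hd a (m + 1) n = n 0 from rfl]
        linear_combination (-(q ^ ((l : ℤ) ^ 2) * iF q ((x : ℤ) - l) * iF q ((n 0 : ℤ) - l) *
          F q (n 0 + hd a m n') * p l * iF q (l - a) * iF q (l + hd a m n') *
          iF q ((x : ℤ) + n 0))) * e2

lemma Gen.step0 (h : Gen q) (h1 : q ∈ S) (h2 : q⁻¹ ∈ S) (h3 : 1 - q ∈ S) {a r : ℕ} {j : ℤ}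
    (hG : Good S q a r j 0) : Good S q a r (j + 1) 0 := by
  intro x n hx
  have key : T q a r (j + 1) x 0 n =
      ∑ l ∈ Icc a x, q ^ ((l : ℤ) ^ 2) * iF q ((x : ℤ) - l) * (1 - q) ^ (x - l) *
        T q a r j l 0 n := by
    rw [sum_congr rfl fun l hl => by rw [T_ext (mem_Icc.1 hl).2, mul_sum], sum_comm, T]
    refine sum_congr rfl fun k hk => ?_
    rw [h.star2 (mem_Icc.1 hk).1 (mem_Icc.1 hk).2, mul_sum, sum_mul]
    refine sum_congr rfl fun l _ => ?_
    linear_combination (u q l k * iF q ((x : ℤ) - l) * (1 - q) ^ (x - l) * Y q a 0 n k) *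
      h.w_succ r j k ((l : ℤ) ^ 2)
  choose! p hp hT using fun l (hl : a ≤ l) => hG l n hl
  choose! p' hp' hT' using fun l : ℕ => fun hl : l ≤ x =>
    h.iF_le h1 (s := l + hd a 0 n) (t := x + hd a 0 n) (by omega)
  refine ⟨∑ l ∈ Icc a x, q ^ ((l : ℤ) ^ 2) * p l * p' l * (1 - q) ^ (x - l) *
    (F q (((x : ℤ) - l) + (l - a)) * iF q ((x : ℤ) - l) * iF q (l - a)), ?_, ?_⟩
  · exact sum_mem fun l hl => mul_mem (mul_mem (mul_mem (mul_mem (zpow_mem' h1 h2 _)
      (hp l (mem_Icc.1 hl).1)) (hp' l (mem_Icc.1 hl).2)) (pow_mem h3 _)) (h.binom_mem h1 h2 _ _)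
  · have e2 := h.F_mul_iF (z := (x : ℤ) - a) (by omega)
    rw [key, sum_mul, sum_mul]
    refine sum_congr rfl fun l hl => ?_
    rw [hT l (mem_Icc.1 hl).1, hT' l (mem_Icc.1 hl).2, show (x : ℤ) - l + (l - a) = x - a by ring]
    linear_combination (-(q ^ ((l : ℤ) ^ 2) * iF q ((x : ℤ) - l) * (1 - q) ^ (x - l) *
      p l * iF q (l - a) * p' l * iF q (x + hd a 0 n))) * e2

section symm

lemma Gen.qz_inv (h : Gen q) (z : ℤ) : qz q⁻¹ z = q ^ (1 - z) * qz q z := by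
  have h1 := h.one_sub
  have h2 := h.inv.one_sub
  have h3 := h.ne
  have h4 := zpow_ne_zero z h3
  have h5 : q - 1 ≠ 0 := fun h0 => h1 (by linear_combination -h0)
  simp only [qz, inv_zpow, zpow_sub₀ h.ne, zpow_one]
  field_simp
  ring

/-- triangular numbers -/
def tri : ℕ → ℤ
  | 0 => 0
  | n + 1 => tri n + n

lemma two_tri (n : ℕ) : 2 * tri n = (n : ℤ) ^ 2 - n := by
  induction n with
  | zero => simp [tri]
  | succ n ih => simp only [tri]; push_cast; linear_combination ih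

lemma Gen.qf_inv (h : Gen q) (n : ℕ) : qf q⁻¹ n = q ^ (-tri n) * qf q n := by
  induction n with
  | zero => simp [qf, tri]
  | succ n ih =>
    simp only [qf, tri]
    rw [ih, h.qz_inv, show -(tri n + n) = -tri n + (1 - ((n : ℤ) + 1)) by ring, zpow_add₀ h.ne]
    ring

lemma Gen.F_inv (h : Gen q) (z : ℤ) : F q⁻¹ z = q ^ (-tri z.toNat) * F q z := h.qf_inv _

lemma Gen.iF_inv (h : Gen q) (z : ℤ) : iF q⁻¹ z = q ^ (tri z.toNat) * iF q z := by
  rcases lt_or_ge z 0 with hz | hz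
  · rw [iF_neg hz, iF_neg hz, mul_zero]
  · rw [iF_eq hz, iF_eq hz, h.F_inv, mul_inv, zpow_neg, inv_inv]

lemma Gen.u_inv (h : Gen q) (n k : ℕ) :
    u q⁻¹ n k = q ^ ((n : ℤ) ^ 2 - n + (k : ℤ) ^ 2) * u q n k := by
  rcases lt_or_ge n k with hk | hk
  · rw [u_eq_zero hk, u_eq_zero hk, mul_zero]
  obtain ⟨A, rfl⟩ := Nat.exists_eq_add_of_le hk
  have e1 : (((k + A : ℕ) : ℤ) + k).toNat = A + 2 * k := by omega
  have e2 : (((k + A : ℕ) : ℤ) - k).toNat = A := by omega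
  have e3 : ((k + A : ℕ) : ℤ) ^ 2 - (k + A : ℕ) + (k : ℤ) ^ 2 = tri (A + 2 * k) + tri A := by
    have t1 := two_tri (A + 2 * k)
    have t2 := two_tri A
    push_cast at t1 ⊢
    nlinarith
  simp only [u]
  rw [h.iF_inv, h.iF_inv, e1, e2, e3, zpow_add₀ h.ne]
  ring

lemma Gen.Y_inv (h : Gen q) (a m : ℕ) (n : ℕ → ℕ) :
    ∃ e : ℤ, ∀ k : ℕ, Y q⁻¹ a m n k = q ^ (e + m * (k : ℤ) ^ 2) * Y q a m n k := by
  induction m generalizing n with
  | zero => exact ⟨0, fun k => by simp [Y]⟩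
  | succ m ih =>
    obtain ⟨e, he⟩ := ih (fun i => n (i + 1))
    refine ⟨e + ((n 0 : ℤ) ^ 2 - n 0) - tri (n 0 + hd a m (fun i => n (i + 1))).toNat,
      fun k => ?_⟩
    simp only [Y]
    rw [he, h.u_inv, h.F_inv]
    push_cast
    rw [show e + ((n 0 : ℤ) ^ 2 - n 0) - tri (n 0 + hd a m (fun i => n (i + 1))).toNat +
        (m + 1) * (k : ℤ) ^ 2 = ((n 0 : ℤ) ^ 2 - n 0 + (k : ℤ) ^ 2) +
        (-tri (n 0 + hd a m (fun i => n (i + 1))).toNat) + (e + m * (k : ℤ) ^ 2) by ring,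
      zpow_add₀ h.ne (_ + _), zpow_add₀ h.ne (_ + _)]
    ring

lemma Gen.w_inv (h : Gen q) (r : ℕ) (j : ℤ) (k : ℕ) (e : ℤ) :
    w q⁻¹ r j k * q ^ (e * (k : ℤ) ^ 2) = q ^ (2 * (r : ℤ) + 1) * w q r (e - j) k := by
  have : (q⁻¹) ^ (j * (k : ℤ) ^ 2 - (r + 1) * k) * q ^ (1 - 2 * (k : ℤ)) *
      (q ^ (1 - (k : ℤ))) ^ (2 * r) * q ^ (e * (k : ℤ) ^ 2) =
      q ^ (2 * (r : ℤ) + 1) * q ^ ((e - j) * (k : ℤ) ^ 2 - (r + 1) * k) := by
    rw [inv_zpow', ← zpow_natCast, ← zpow_mul, ← zpow_add₀ h.ne, ← zpow_add₀ h.ne,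
      ← zpow_add₀ h.ne, ← zpow_add₀ h.ne]
    congr 1
    push_cast
    ring
  simp only [w, h.qz_inv, mul_pow]
  linear_combination (qz q (2 * k) * qz q k ^ (2 * r)) * this

lemma Gen.symm (h : Gen q) (h1 : q ∈ S) (h2 : q⁻¹ ∈ S) {a r m : ℕ} {j : ℤ}
    (hG : Good S q⁻¹ a r j m) : Good S q a r (m + 1 - j) m := by
  intro x n hx
  obtain ⟨p, hp, hT⟩ := hG x n hx
  obtain ⟨e, he⟩ := h.Y_inv a m n
  have key : T q⁻¹ a r j x m n =
      q ^ (2 * (r : ℤ) + 1 + ((x : ℤ) ^ 2 - x) + e) * T q a r (m + 1 - j) x m n := by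
    rw [T, T, mul_sum]
    refine sum_congr rfl fun k _ => ?_
    have e1 := h.w_inv r j k (m + 1)
    have e2 : q ^ ((x : ℤ) ^ 2 - x + (k : ℤ) ^ 2) * q ^ (e + m * (k : ℤ) ^ 2) =
        q ^ ((x : ℤ) ^ 2 - x) * q ^ e * q ^ (((m : ℤ) + 1) * (k : ℤ) ^ 2) := by
      rw [← zpow_add₀ h.ne, ← zpow_add₀ h.ne, ← zpow_add₀ h.ne]; congr 1; ring
    rw [he, h.u_inv, zpow_add₀ h.ne (_ + _) e, zpow_add₀ h.ne (2 * (r : ℤ) + 1)]
    linear_combination (w q⁻¹ r j k * u q x k * Y q a m n k) * e2 +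
      (q ^ ((x : ℤ) ^ 2 - x) * q ^ e * u q x k * Y q a m n k) * e1
  rw [key, h.iF_inv, h.iF_inv] at hT
  set E : ℤ := 2 * (r : ℤ) + 1 + ((x : ℤ) ^ 2 - x) + e
  refine ⟨q ^ (-E) * p * q ^ tri ((x : ℤ) - a).toNat * q ^ tri ((x : ℤ) + hd a m n).toNat,
    mul_mem (mul_mem (mul_mem (zpow_mem' h1 h2 _) hp) (zpow_mem' h1 h2 _)) (zpow_mem' h1 h2 _), ?_⟩
  have e3 : q ^ (-E) * q ^ E = 1 := by rw [← zpow_add₀ h.ne]; simp
  linear_combination q ^ (-E) * hT - T q a r (m + 1 - j) x m n * e3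

end symm

section base

/-- `q^{-k} [k]^2` -/
def xk (q : K) (k : ℤ) : K := q ^ (-k) * qz q k ^ 2

/-- falling product -/
def FF (q : K) (i : ℕ) (N : ℤ) : K := ∏ t ∈ range i, qz q (N - t)

/-- the difference operator -/
def D (q : K) (a : ℕ) : (ℤ → K) →ₗ[K] (ℤ → K) where
  toFun f := fun N => xk q (a + N) * f N - q ^ (-(a + N)) * qz q N * qz q (N + 2 * a - 1) * f (N - 1)
  map_add' f g := by ext N; simp only [Pi.add_apply]; ring
  map_smul' c f := by ext N; simp only [Pi.smul_apply, smul_eq_mul, RingHom.id_apply]; ring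

lemma D_apply (a : ℕ) (f : ℤ → K) (N : ℤ) : D q a f N =
    xk q (a + N) * f N - q ^ (-(a + N)) * qz q N * qz q (N + 2 * a - 1) * f (N - 1) := rfl

lemma Gen.xk_sub (h : Gen q) (n k : ℤ) :
    xk q k = xk q n - q ^ (-n) * qz q (n + k) * qz q (n - k) := by
  have h1 := h.one_sub
  have h3 := zpow_ne_zero n h.ne
  have h4 := zpow_ne_zero k h.ne
  simp only [xk, qz, zpow_add₀ h.ne, zpow_sub₀ h.ne, zpow_neg]
  field_simp
  ring

lemma Gen.D_FF (h : Gen q) (a i : ℕ) :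
    D q a (FF q i) = xk q (a + i) • FF q i + (q ^ ((a : ℤ) - 1) * qz q (i + 1)) • FF q (i + 1) := by
  ext N
  have e1 : FF q (i + 1) N = FF q i N * qz q (N - i) := by simp only [FF, prod_range_succ]
  have e2 : FF q (i + 1) N = FF q i (N - 1) * qz q N := by
    simp only [FF, prod_range_succ']
    congr 1
    · refine prod_congr rfl fun t _ => ?_
      congr 1; push_cast; ring
    · simp
  have e3 : xk q (a + N) - q ^ (-((a : ℤ) + N)) * qz q (N + 2 * a - 1) * qz q (N - i) =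
      xk q (a + i) + q ^ ((a : ℤ) - 1) * qz q (i + 1) * qz q (N - i) := by
    have h1 := h.one_sub
    have h2 := h.ne
    have h3 := zpow_ne_zero N h.ne
    have h4 := zpow_ne_zero (a : ℤ) h.ne
    have h5 := zpow_ne_zero (i : ℤ) h.ne
    simp only [xk, qz, zpow_add₀ h.ne, zpow_sub₀ h.ne, zpow_neg, two_mul, zpow_one]
    field_simp
    ring
  simp only [D_apply, Pi.add_apply, Pi.smul_apply, smul_eq_mul]
  linear_combination FF q i N * e3 +
    (q ^ (-((a : ℤ) + N)) * qz q (N + 2 * a - 1)) * (e2 - e1) -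
    (q ^ ((a : ℤ) - 1) * qz q (i + 1)) * e1

lemma Gen.D_pow_mem (h : Gen q) (h1 : q ∈ S) (h2 : q⁻¹ ∈ S) (a r i N : ℕ) :
    ((D q a) ^ r) (FF q i) N ∈ S := by
  induction r generalizing i with
  | zero =>
    simp only [pow_zero, Module.End.one_apply, FF]
    rcases lt_or_ge N i with hi | hi
    · rw [prod_eq_zero (i := N) (mem_range.2 hi) (by simp)]; exact zero_mem S
    · exact prod_mem fun t ht => h.qz_mem h1 (by have := mem_range.1 ht; omega)
  | succ r ih =>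
    rw [pow_succ, Module.End.mul_apply, h.D_FF, map_add, map_smul, map_smul]
    simp only [Pi.add_apply, Pi.smul_apply, smul_eq_mul]
    exact add_mem (mul_mem (mul_mem (zpow_mem' h1 h2 _) (pow_mem (h.qz_mem h1 (by omega)) _)) (ih _))
      (mul_mem (mul_mem (zpow_mem' h1 h2 _) (h.qz_mem h1 (by omega))) (ih _))

lemma Gen.w_one_succ (h : Gen q) (r k : ℕ) : w q (r + 1) 1 k = xk q k * w q r 1 k := by
  simp only [w, xk]
  push_cast
  rw [show 1 * (k : ℤ) ^ 2 - (r + 1 + 1) * k = -k + (1 * (k : ℤ) ^ 2 - (r + 1) * k) by ring,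
    zpow_add₀ h.ne]
  ring

lemma Gen.base_eq (h : Gen q) (a r N : ℕ) (n : ℕ → ℕ) :
    T q a r 1 (a + N) 0 n = q ^ ((a : ℤ) ^ 2 - a) * ((D q a) ^ r) (FF q 0) N *
      iF q N * iF q (N + 2 * a - 1) := by
  induction r generalizing N with
  | zero =>
    let t : ℕ → K := fun s => q ^ (((a : ℤ) + s) ^ 2 - (a + s)) * iF q (N - s) *
      iF q (N + 2 * a + s - 1)
    have e : ∀ s : ℕ, w q 0 1 (a + s) * u q (a + N) (a + s) * Y q a 0 n (a + s) =
        t s - t (s + 1) := by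
      intro s
      have e1 := h.iF_pred ((N : ℤ) - s)
      have e2 := h.iF_pred ((N : ℤ) + 2 * a + s)
      have e3 := h.qz_add (2 * ((a : ℤ) + s)) (N - s)
      simp only [t, w, u, Y]
      push_cast
      rw [show (N : ℤ) - (s + 1) = N - s - 1 by ring, e1, e2,
        show (N : ℤ) + 2 * a + (s + 1) - 1 = N + 2 * a + s by ring,
        show ((a : ℤ) + (s + 1)) ^ 2 - (a + (s + 1)) = ((a + s) ^ 2 - (a + s)) + 2 * (a + s) by ring,
        zpow_add₀ h.ne, show (a : ℤ) + N + (a + s) = N + 2 * a + s by ring,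
        show (a : ℤ) + N - (a + s) = N - s by ring,
        show 1 * ((a : ℤ) + s) ^ 2 - 1 * (a + s) = (a + s) ^ 2 - (a + s) by ring]
      rw [show 2 * ((a : ℤ) + s) + (N - s) = N + 2 * a + s by ring] at e3
      rw [e3]
      ring
    rw [T, ← Finset.Ico_add_one_right_eq_Icc, sum_Ico_eq_sum_range,
      show a + N + 1 - a = N + 1 by omega, sum_congr rfl fun s _ => e s, sum_range_sub']
    simp only [t]
    rw [iF_neg (z := (N : ℤ) - (N + 1 : ℕ)) (by omega)]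
    simp [FF]
  | succ r ih =>
    rw [pow_succ' (D q a), Module.End.mul_apply, D_apply]
    cases N with
    | zero =>
      have e := ih 0
      simp only [T, add_zero, Icc_self, sum_singleton, h.w_one_succ] at e ⊢
      simp only [Nat.cast_zero, add_zero, qz_zero, mul_zero, zero_mul, sub_zero] at e ⊢
      linear_combination xk q a * e
    | succ N =>
      have e := ih N
      have e' := ih (N + 1)
      rw [T_ext (x := a + (N + 1)) (by omega)] at e
      have e1 := h.iF_pred ((N : ℤ) + 1)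
      have e2 := h.iF_pred ((N : ℤ) + 1 + 2 * a - 1)
      have key : T q a (r + 1) 1 (a + (N + 1)) 0 n =
          xk q (a + (N + 1)) * T q a r 1 (a + (N + 1)) 0 n - q ^ (-((a : ℤ) + (N + 1))) *
            ∑ k ∈ Icc a (a + (N + 1)), w q r 1 k * u q (a + N) k * Y q a 0 n k := by
        rw [T, T, mul_sum, mul_sum, ← sum_sub_distrib]
        refine sum_congr rfl fun k _ => ?_
        have f1 := h.iF_pred ((a : ℤ) + (N + 1) + k)
        have f2 := h.iF_pred ((a : ℤ) + (N + 1) - k)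
        rw [h.w_one_succ, h.xk_sub ((a : ℤ) + (N + 1)) k]
        simp only [u]
        push_cast
        rw [show (a : ℤ) + N + k = a + (N + 1) + k - 1 by ring,
          show (a : ℤ) + N - k = a + (N + 1) - k - 1 by ring, f1, f2]
        ring
      rw [key, e, e']
      push_cast
      rw [add_sub_cancel_right] at e1 ⊢
      rw [show (N : ℤ) + 2 * a - 1 = N + 1 + 2 * a - 1 - 1 by ring, e2, e1]
      ring

lemma Gen.base (h : Gen q) (h1 : q ∈ S) (h2 : q⁻¹ ∈ S) (a r : ℕ) : Good S q a r 1 0 := by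
  intro x n hx
  obtain ⟨N, rfl⟩ := Nat.exists_eq_add_of_le hx
  refine ⟨_, mul_mem (zpow_mem' h1 h2 ((a : ℤ) ^ 2 - a)) (h.D_pow_mem h1 h2 a r 0 N), ?_⟩
  rw [h.base_eq]
  simp only [hd]
  push_cast
  rw [show (a : ℤ) + N - a = N by ring, show (a : ℤ) + N + (a - 1) = N + 2 * a - 1 by ring]

end base

theorem good_red (a r m : ℕ) (H : ∀ q : K, Gen q → q ∈ S → q⁻¹ ∈ S →
      ∀ j : ℤ, 1 ≤ j → j ≤ m + 1 → Good S q a r j m) : ∀ q : K, Gen q → q ∈ S → q⁻¹ ∈ S →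
      ∀ j : ℤ, 0 ≤ j → j ≤ m + 1 → Good S q a r j m := by
  intro q h h1 h2 j hj0 hj1
  rcases eq_or_lt_of_le hj0 with rfl | hj
  · simpa using h.symm h1 h2 (H _ h.inv h2 (by simpa using h1) (m + 1) (by omega) le_rfl)
  · exact H _ h h1 h2 j hj hj1

theorem good_pos (a r m : ℕ) : ∀ q : K, Gen q → q ∈ S → q⁻¹ ∈ S →
    ∀ j : ℤ, 0 ≤ j → j ≤ m + 1 → Good S q a r j m := by
  induction m with
  | zero =>
    refine good_red a r 0 fun q h h1 h2 j hj0 hj1 => ?_
    obtain rfl : j = 1 := by omega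
    exact h.base h1 h2 a r
  | succ m ih =>
    refine good_red a r (m + 1) fun q h h1 h2 j hj0 hj1 => ?_
    have := h.step h1 h2 (ih q h h1 h2 (j - 1) (by omega) (by push_cast at hj1; omega))
    rwa [sub_add_cancel] at this

theorem good_all (hS : (-1 : K) ∈ S) (a r m : ℕ) {q : K} (h : Gen q) (h1 : q ∈ S) (h2 : q⁻¹ ∈ S)
    (j : ℤ) : Good S q a r j m := by
  induction m generalizing j with
  | zero =>
    have up : ∀ {q : K}, Gen q → q ∈ S → q⁻¹ ∈ S → ∀ j : ℤ, 1 ≤ j → Good S q a r j 0 := by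
      intro q h h1 h2 j hj
      induction j, hj using Int.leInduction with
      | base => exact h.base h1 h2 a r
      | succ j _ ih =>
        refine h.step0 h1 h2 ?_ ih
        have := add_mem (one_mem S) (mul_mem hS h1)
        rwa [neg_one_mul, ← sub_eq_add_neg] at this
    rcases lt_or_ge j 1 with hj | hj
    · simpa using h.symm h1 h2 (up h.inv h2 (by simpa using h1) (1 - j) (by omega))
    · exact up h h1 h2 j hj
  | succ m ih =>
    have := h.step h1 h2 (ih (j - 1))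
    rwa [sub_add_cancel] at this

end Pool.Agent.Lib.MP_62f119_co
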